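import Pool.Agent.Work.MP_2738db_nt_C.Interface
import Pool.Agent.Work.MP_2738db_nt_U_helper40.Num

/-!
Block SVE of the project COPRIME EXPONENTS (MP_2738db): the sieve for even `c`.
-/

set_option autoImplicit false

namespace Pool.Agent.Work.MP_2738db_nt_C.helper26

open Finset Filter
open Pool.Agent.Work.MP_2738db_nt_U.helper40 (pow_red gcd_red ev_pow ev_exp)

/-- three equations `t ^ k + β = ρ s ^ l` modulo the primes not dividing `P` -/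
structure EqF (P : ℕ) (E : ℕ → ℕ → ℕ → Prop) where
  β : (q : ℕ) → ℕ → ℕ → ZMod q
  ρ : (q : ℕ) → ℕ → ZMod q
  hβ : ∀ q κ τ : ℕ, q.Prime → ¬ q ∣ P → β q κ τ ≠ 0
  hρ : ∀ q τ : ℕ, q.Prime → ¬ q ∣ P → ρ q τ ≠ 0
  heq : ∀ t k l : ℕ, E t k l → ∃ τ < 3, ∀ q κ : ℕ, q.Prime → ¬ q ∣ P →
    (∀ x : ZMod q, x ^ k = x ^ κ) → ∃ s : ZMod q, (t : ZMod q) ^ κ + β q κ τ = ρ q τ * s ^ l

/-- the set sieved in one variable -/
def ExE (M : ℕ) (ε : ℝ) (E : ℕ → ℕ → ℕ → Prop) : Set ℕ :=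
  {t : ℕ | 1 ≤ t ∧ t ≤ M ∧ ∃ k l : ℕ, 1 ≤ k ∧ l.Prime ∧ Real.log l ≤ Real.log M ^ (1 - ε) ∧
    (k.primeFactors.card : ℝ) ≤ Real.exp (Real.log M ^ (1 - ε)) ∧ E t k l}

theorem coreSv (hG : Stmt_Gen) (hL : MP_2738db_nt_U.Stmt_Loc) (ε : ℝ) (hε : 0 < ε) (hε1 : ε < 1) :
    ∃ κ : ℝ, 0 < κ ∧ κ < 1 / 10 ∧ ∃ M₀ : ℕ, ∀ M P : ℕ, M₀ ≤ M → 1 ≤ P →
      Real.log P ≤ Real.exp (Real.log M ^ (1 - ε)) →
      ∀ (E : ℕ → ℕ → ℕ → Prop) (_ : EqF P E),
        (((ExE M ε E).ncard : ℕ) : ℝ) ≤ 3 * (M : ℝ) ^ (1 - 7 * κ) := by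
  classical
  obtain ⟨κ, hκ0, hκ1, M₁, hM₁⟩ := hG ε hε hε1
  refine ⟨κ, hκ0, hκ1, max M₁ 3, ?_⟩
  intro M P hM hP hPM E F
  have hM3 : 3 ≤ M := (le_max_right _ _).trans hM
  have hM1 : M₁ ≤ M := (le_max_left _ _).trans hM
  have hMr : (3 : ℝ) ≤ M := by exact_mod_cast hM3
  have hM0 : (0 : ℝ) < M := by linarith
  have hMone : (1 : ℝ) ≤ M := by linarith
  have hlogM : 1 ≤ 10 * Real.log M := by
    have h1 : Real.exp 1 ≤ M := by
      have := Real.exp_one_lt_d9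
      linarith
    have h2 : 1 ≤ Real.log M := (Real.le_log_iff_exp_le hM0).2 h1
    linarith
  obtain ⟨K, Q, L, hK, hLb, hQ, hlk⟩ := hM₁ M P hM1 hP hPM
  set X : ℕ := ⌊(M : ℝ) ^ κ⌋₊ with hX
  have hMκ : 0 < (M : ℝ) ^ κ := Real.rpow_pos_of_pos hM0 _
  set Θ : Finset (ℕ × ℕ × ℕ × ℕ) := Icc 1 K ×ˢ (Icc 1 K ×ˢ (Icc 1 X ×ˢ range 3)) with hΘ
  set Good : ℕ × ℕ × ℕ × ℕ → Prop := fun θ => θ.1.Prime ∧ 1 ≤ θ.2.2.1 ∧
    (∀ q ∈ Q θ.1 θ.2.1, 400 * Nat.gcd θ.2.2.1 (q - 1) ^ 2 ≤ q) ∧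
    Sv M (10 * κ) (Q θ.1 θ.2.1) with hGood
  set FS : ℕ × ℕ × ℕ × ℕ → Set ℕ := fun θ => {t : ℕ | 1 ≤ t ∧ t ≤ M ∧ ∀ q ∈ Q θ.1 θ.2.1,
    ∃ s : ZMod q, (t : ZMod q) ^ θ.2.2.1 + F.β q θ.2.2.1 θ.2.2.2 = F.ρ q θ.2.2.2 * s ^ θ.1}
    with hFS
  have hincl : ExE M ε E ⊆ ⋃ θ ∈ Θ.filter Good, FS θ := by
    rintro t ⟨ht1, htM, k, l, hk, hlp, hll, hkk, hE⟩
    obtain ⟨hlK, k₀, hk₀, hk₀K, hgcd, hSv⟩ := hlk l k hlp hll hk hkk
    obtain ⟨hL1, -, hLM⟩ := hLb l k₀ hlp.one_le hlK hk₀ hk₀K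
    have hLX : L l k₀ ≤ X := by
      apply Nat.le_floor
      refine le_trans ?_ hLM
      have h1 : (1 : ℝ) ≤ (10 * Real.log M) ^ (L l k₀).primeFactors.card :=
        one_le_pow₀ hlogM
      have h2 : (0 : ℝ) ≤ L l k₀ := Nat.cast_nonneg _
      nlinarith
    obtain ⟨τ, hτ, hτq⟩ := F.heq t k l hE
    have hκX : (k - 1) % L l k₀ + 1 ≤ X := by
      have := Nat.mod_lt (k - 1) hL1
      omega
    refine Set.mem_biUnion (x := (l, k₀, (k - 1) % L l k₀ + 1, τ)) ?_ ?_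
    · rw [SetLike.mem_coe, mem_filter, hΘ, mem_product, mem_product, mem_product, mem_Icc, mem_Icc,
        mem_Icc, mem_range]
      refine ⟨⟨⟨hlp.one_le, hlK⟩, ⟨hk₀, hk₀K⟩, ⟨Nat.le_add_left 1 _, hκX⟩, hτ⟩, hlp,
        Nat.le_add_left 1 _, ?_, hSv⟩
      intro q hq
      show 400 * Nat.gcd ((k - 1) % L l k₀ + 1) (q - 1) ^ 2 ≤ q
      rw [gcd_red hL1 (hQ l k₀ q hq).2.2.2.2 hk]
      exact hgcd q hq
    · refine ⟨ht1, htM, ?_⟩
      intro q hq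
      obtain ⟨hqp, hqP, -, -, hqL⟩ := hQ l k₀ q hq
      exact hτq q _ hqp hqP (fun x => pow_red hqp hL1 hqL hk x)
  have hone : ∀ θ ∈ Θ.filter Good, ((FS θ).ncard : ℝ) ≤ (M : ℝ) ^ (1 - 10 * κ) := by
    intro θ hθ
    obtain ⟨hlp, hk1, hg, hSv⟩ := (mem_filter.1 hθ).2
    exact hSv (fun q x => ∃ s : ZMod q,
      x ^ θ.2.2.1 + F.β q θ.2.2.1 θ.2.2.2 = F.ρ q θ.2.2.2 * s ^ θ.1) (fun q hq => by
        obtain ⟨hqp, hqP, -, hlq, -⟩ := hQ θ.1 θ.2.1 q hq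
        exact hL q θ.1 θ.2.2.1 hqp hlp hlq hk1 (hg q hq) _ _ (F.hβ q _ _ hqp hqP)
          (F.hρ q _ hqp hqP))
  have hfin : (⋃ θ ∈ Θ.filter Good, FS θ).Finite := by
    refine (Θ.filter Good).finite_toSet.biUnion (fun θ _ => ?_)
    exact (Set.finite_Icc 1 M).subset (fun t ht => ⟨ht.1, ht.2.1⟩)
  have h1 : (((ExE M ε E).ncard : ℕ) : ℝ) ≤ ∑ θ ∈ Θ.filter Good, ((FS θ).ncard : ℝ) := by
    have h2 : (ExE M ε E).ncard ≤ ∑ θ ∈ Θ.filter Good, (FS θ).ncard :=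
      (Set.ncard_le_ncard hincl hfin).trans (Finset.set_ncard_biUnion_le _ _)
    exact_mod_cast h2
  have h2 : ∑ θ ∈ Θ.filter Good, ((FS θ).ncard : ℝ)
      ≤ ((Θ.filter Good).card : ℝ) * (M : ℝ) ^ (1 - 10 * κ) := by
    have := Finset.sum_le_card_nsmul _ _ _ hone
    rwa [nsmul_eq_mul] at this
  have h3 : ((Θ.filter Good).card : ℝ) ≤ 3 * (M : ℝ) ^ (3 * κ) := by
    have h4 : ((Θ.filter Good).card : ℝ) ≤ (Θ.card : ℝ) := by
      exact_mod_cast card_filter_le _ _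
    have h5 : (Θ.card : ℝ) = K * (K * (X * 3)) := by
      rw [hΘ, card_product, card_product, card_product, Nat.card_Icc, Nat.card_Icc, card_range]
      push_cast
      norm_num
    have h6 : (X : ℝ) ≤ (M : ℝ) ^ κ := Nat.floor_le hMκ.le
    have h7 : (M : ℝ) ^ (3 * κ) = (M : ℝ) ^ κ * ((M : ℝ) ^ κ * (M : ℝ) ^ κ) := by
      rw [← Real.rpow_add hM0, ← Real.rpow_add hM0]
      congr 1
      ring
    rw [h5] at h4
    refine h4.trans ?_
    have hK0 : (0 : ℝ) ≤ K := Nat.cast_nonneg _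
    have hX0 : (0 : ℝ) ≤ X := Nat.cast_nonneg _
    calc (K : ℝ) * (K * (X * 3)) ≤ (M : ℝ) ^ κ * ((M : ℝ) ^ κ * ((M : ℝ) ^ κ * 3)) := by
          gcongr
      _ = 3 * (M : ℝ) ^ (3 * κ) := by rw [h7]; ring
  calc (((ExE M ε E).ncard : ℕ) : ℝ) ≤ ((Θ.filter Good).card : ℝ) * (M : ℝ) ^ (1 - 10 * κ) :=
        h1.trans h2
    _ ≤ 3 * (M : ℝ) ^ (3 * κ) * (M : ℝ) ^ (1 - 10 * κ) :=
        mul_le_mul_of_nonneg_right h3 (Real.rpow_nonneg hM0.le _)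
    _ = 3 * (M : ℝ) ^ (1 - 7 * κ) := by
        rw [mul_assoc, ← Real.rpow_add hM0]
        congr 2
        ring

lemma two_ne {q w : ℕ} (hqw : ¬ q ∣ 2 * w) : (2 : ZMod q) ≠ 0 ∧ (w : ZMod q) ≠ 0 := by
  constructor
  · intro h
    have h1 : ((2 : ℕ) : ZMod q) = 0 := by exact_mod_cast h
    rw [ZMod.natCast_eq_zero_iff] at h1
    exact hqw (h1.trans (Dvd.intro _ rfl))
  · intro h
    rw [ZMod.natCast_eq_zero_iff] at h
    exact hqw (h.trans (Dvd.intro_left _ rfl))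

/-- the first factor is fixed -/
noncomputable def eqA (w : ℕ) : EqF (2 * w) (fun t k l => ∃ A, EqE w t k l A) where
  β q κ τ := if τ = 0 then 4 * (w : ZMod q) ^ κ else -(4 * (w : ZMod q) ^ κ)
  ρ q τ := if τ = 1 then -4 else 4
  hβ := by
    intro q κ τ hq hqw
    have : Fact q.Prime := ⟨hq⟩
    obtain ⟨h2, hw⟩ := two_ne hqw
    have h4 : (4 : ZMod q) ≠ 0 := by
      have : (4 : ZMod q) = 2 * 2 := by norm_num
      rw [this]
      exact mul_ne_zero h2 h2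
    have h5 : 4 * (w : ZMod q) ^ κ ≠ 0 := mul_ne_zero h4 (pow_ne_zero _ hw)
    split_ifs
    · exact h5
    · exact neg_ne_zero.2 h5
  hρ := by
    intro q τ hq hqw
    have : Fact q.Prime := ⟨hq⟩
    obtain ⟨h2, hw⟩ := two_ne hqw
    have h4 : (4 : ZMod q) ≠ 0 := by
      have : (4 : ZMod q) = 2 * 2 := by norm_num
      rw [this]
      exact mul_ne_zero h2 h2
    split_ifs
    · exact neg_ne_zero.2 h4
    · exact h4
  heq := by
    rintro t k l ⟨A, hA⟩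
    rcases hA with h | h | h
    · refine ⟨0, by norm_num, fun q κ hq hqw hx => ⟨(A : ZMod q), ?_⟩⟩
      have h1 := congrArg (fun z : ℕ => (z : ZMod q)) h
      push_cast at h1
      rw [hx, hx] at h1
      simp only [if_true, if_false, zero_ne_one]
      linear_combination h1
    · refine ⟨1, by norm_num, fun q κ hq hqw hx => ⟨(A : ZMod q), ?_⟩⟩
      have h1 := congrArg (fun z : ℕ => (z : ZMod q)) h
      push_cast at h1
      rw [hx, hx] at h1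
      simp only [if_true, if_false, one_ne_zero]
      linear_combination -h1
    · refine ⟨2, by norm_num, fun q κ hq hqw hx => ⟨(A : ZMod q), ?_⟩⟩
      have h1 := congrArg (fun z : ℕ => (z : ZMod q)) h
      push_cast at h1
      rw [hx, hx] at h1
      simp only [if_false, two_ne_zero, OfNat.ofNat_ne_one]
      linear_combination h1

/-- the second factor is fixed -/
noncomputable def eqB (w : ℕ) : EqF (2 * w) (fun t k l => ∃ A, EqE t w k l A) where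
  β q κ τ := if τ = 0 then (4 : ZMod q)⁻¹ * (w : ZMod q) ^ κ
    else -((4 : ZMod q)⁻¹ * (w : ZMod q) ^ κ)
  ρ q τ := if τ = 2 then -1 else 1
  hβ := by
    intro q κ τ hq hqw
    have : Fact q.Prime := ⟨hq⟩
    obtain ⟨h2, hw⟩ := two_ne hqw
    have h4 : (4 : ZMod q) ≠ 0 := by
      have : (4 : ZMod q) = 2 * 2 := by norm_num
      rw [this]
      exact mul_ne_zero h2 h2
    have h5 : (4 : ZMod q)⁻¹ * (w : ZMod q) ^ κ ≠ 0 :=
      mul_ne_zero (inv_ne_zero h4) (pow_ne_zero _ hw)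
    split_ifs
    · exact h5
    · exact neg_ne_zero.2 h5
  hρ := by
    intro q τ hq hqw
    have : Fact q.Prime := ⟨hq⟩
    split_ifs
    · exact neg_ne_zero.2 one_ne_zero
    · exact one_ne_zero
  heq := by
    rintro t k l ⟨A, hA⟩
    have key : ∀ q : ℕ, q.Prime → ¬ q ∣ 2 * w → (4 : ZMod q)⁻¹ * 4 = 1 := by
      intro q hq hqw
      have : Fact q.Prime := ⟨hq⟩
      obtain ⟨h2, hw⟩ := two_ne hqw
      have h4 : (4 : ZMod q) ≠ 0 := by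
        have : (4 : ZMod q) = 2 * 2 := by norm_num
        rw [this]
        exact mul_ne_zero h2 h2
      exact inv_mul_cancel₀ h4
    rcases hA with h | h | h
    · refine ⟨0, by norm_num, fun q κ hq hqw hx => ⟨(A : ZMod q), ?_⟩⟩
      have h1 := congrArg (fun z : ℕ => (z : ZMod q)) h
      push_cast at h1
      rw [hx, hx] at h1
      have h2 := key q hq hqw
      simp only [if_true, if_false, OfNat.zero_ne_ofNat]
      linear_combination (4 : ZMod q)⁻¹ * h1 + ((A : ZMod q) ^ l - (t : ZMod q) ^ κ) * h2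
    · refine ⟨1, by norm_num, fun q κ hq hqw hx => ⟨(A : ZMod q), ?_⟩⟩
      have h1 := congrArg (fun z : ℕ => (z : ZMod q)) h
      push_cast at h1
      rw [hx, hx] at h1
      have h2 := key q hq hqw
      simp only [if_false, one_ne_zero, OfNat.one_ne_ofNat]
      linear_combination (4 : ZMod q)⁻¹ * h1 + ((A : ZMod q) ^ l - (t : ZMod q) ^ κ) * h2
    · refine ⟨2, by norm_num, fun q κ hq hqw hx => ⟨(A : ZMod q), ?_⟩⟩
      have h1 := congrArg (fun z : ℕ => (z : ZMod q)) h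
      push_cast at h1
      rw [hx, hx] at h1
      have h2 := key q hq hqw
      simp only [if_true, if_false, two_ne_zero]
      linear_combination -(4 : ZMod q)⁻¹ * h1 - ((A : ZMod q) ^ l + (t : ZMod q) ^ κ) * h2

lemma numE (ε κ : ℝ) (hε : 0 < ε) (hε1 : ε < 1) (hκ : 0 < κ) : ∃ y₀ : ℝ, 5 ≤ y₀ ∧
    ∀ y : ℝ, y₀ ≤ y → 3 ≤ y ^ (ε / 2) ∧ 3 * y ≤ Real.exp (y ^ (1 - ε / 2)) ∧
      6 * (1 + y) ≤ Real.exp (κ / 2 * y) := by
  have e1 := (tendsto_rpow_atTop (show 0 < ε / 2 by linarith)).eventually_ge_atTop 3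
  have e2 := ev_exp 1 3 (show 0 < 1 - ε / 2 by linarith) one_pos
  have e3 := ev_exp 1 12 one_pos (show 0 < κ / 2 by linarith)
  obtain ⟨y₀, hy₀⟩ := eventually_atTop.mp (e1.and (e2.and e3))
  refine ⟨max y₀ 5, le_max_right _ _, fun y hy => ?_⟩
  obtain ⟨f1, f2, f3⟩ := hy₀ y ((le_max_left _ _).trans hy)
  have hy5 : 5 ≤ y := (le_max_right _ _).trans hy
  rw [Real.rpow_one, one_mul] at f2
  rw [Real.rpow_one] at f3
  refine ⟨f1, f2, ?_⟩
  linarith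

/-- one variable fixed: all the conditions hold -/
lemma condE {ε y₀ : ℝ} (hε : 0 < ε) (hε1 : ε < 1) (h5 : 5 ≤ y₀)
    (hy₀ : ∀ y : ℝ, y₀ ≤ y → 3 ≤ y ^ (ε / 2) ∧ 3 * y ≤ Real.exp (y ^ (1 - ε / 2)))
    {N w : ℕ} (hN : 3 * y₀ ≤ Real.log N) (hw : 1 ≤ w) (hwn : w ≤ Nat.sqrt N) :
    Real.log ((2 * w : ℕ) : ℝ) ≤ Real.exp (Real.log ((N / w : ℕ) : ℝ) ^ (1 - ε / 2)) ∧
    Real.log N ^ (1 - ε) ≤ Real.log ((N / w : ℕ) : ℝ) ^ (1 - ε / 2) := by
  set x := Real.log N with hx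
  set n := Nat.sqrt N with hn
  have hn1 : 1 ≤ n := hw.trans hwn
  have hnn : n * n ≤ N := Nat.sqrt_le N
  have hN1 : 1 ≤ N := by nlinarith
  have hN0 : (0 : ℝ) < N := by exact_mod_cast hN1
  have hnN : n ≤ N / w := by
    rw [Nat.le_div_iff_mul_le hw]
    exact (Nat.mul_le_mul_left n hwn).trans hnn
  have hM1 : 1 ≤ N / w := hn1.trans hnN
  have hM0 : (0 : ℝ) < ((N / w : ℕ) : ℝ) := by exact_mod_cast hM1
  have hlog2 : Real.log 2 < 0.7 := by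
    have := Real.log_two_lt_d9
    linarith
  have hy : x / 3 ≤ Real.log ((N / w : ℕ) : ℝ) := by
    have h1 : N < (n + 1) * (n + 1) := Nat.lt_succ_sqrt N
    have h2 : (N : ℝ) ≤ (2 * ((N / w : ℕ) : ℝ)) ^ 2 := by
      have h3 : N ≤ (2 * (N / w)) ^ 2 := by
        have h4 : n + 1 ≤ 2 * (N / w) := by omega
        calc N ≤ (n + 1) * (n + 1) := h1.le
          _ ≤ (2 * (N / w)) * (2 * (N / w)) := Nat.mul_le_mul h4 h4
          _ = (2 * (N / w)) ^ 2 := by ring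
      exact_mod_cast h3
    have h3 := Real.log_le_log hN0 h2
    rw [Real.log_pow, Real.log_mul (by norm_num) hM0.ne'] at h3
    push_cast at h3
    linarith
  set y := Real.log ((N / w : ℕ) : ℝ) with hyd
  have hyy : y₀ ≤ y := by linarith
  obtain ⟨f1, f2⟩ := hy₀ y hyy
  have hy0 : 0 < y := by linarith
  refine ⟨?_, ?_⟩
  · refine le_trans ?_ f2
    have h1 : (0 : ℝ) < w := by exact_mod_cast hw
    push_cast
    rw [Real.log_mul (by norm_num) h1.ne']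
    have h2 : Real.log w ≤ Real.log n := Real.log_le_log h1 (by exact_mod_cast hwn)
    have h3 : 2 * Real.log n ≤ x := by
      have h4 : ((n : ℝ)) ^ 2 ≤ N := by
        have : n ^ 2 ≤ N := by rw [sq]; exact hnn
        exact_mod_cast this
      have h5 := Real.log_le_log (by positivity) h4
      rw [Real.log_pow] at h5
      push_cast at h5
      exact h5
    linarith
  · have h1 : x ≤ 3 * y := by linarith
    have hx0 : 0 ≤ x := by linarith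
    calc x ^ (1 - ε) ≤ (3 * y) ^ (1 - ε) := Real.rpow_le_rpow hx0 h1 (by linarith)
      _ = 3 ^ (1 - ε) * y ^ (1 - ε) := Real.mul_rpow (by norm_num) hy0.le
      _ ≤ 3 * y ^ (1 - ε) := by
        apply mul_le_mul_of_nonneg_right _ (Real.rpow_nonneg hy0.le _)
        calc (3 : ℝ) ^ (1 - ε) ≤ 3 ^ (1 : ℝ) :=
              Real.rpow_le_rpow_of_exponent_le (by norm_num) (by linarith)
          _ = 3 := Real.rpow_one 3
      _ ≤ y ^ (ε / 2) * y ^ (1 - ε) :=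
        mul_le_mul_of_nonneg_right f1 (Real.rpow_nonneg hy0.le _)
      _ = y ^ (1 - ε / 2) := by
        rw [← Real.rpow_add hy0]
        congr 1
        ring

lemma ExE_finite (M : ℕ) (ε : ℝ) (E : ℕ → ℕ → ℕ → Prop) : (ExE M ε E).Finite :=
  (Set.finite_Icc 1 M).subset (fun _ ht => ⟨ht.1, ht.2.1⟩)

/-- the sum over the smaller factor -/
lemma sumE {κ : ℝ} (hκ0 : 0 < κ) {N : ℕ} (hN : 1 ≤ N)
    (h6 : 6 * (1 + Real.log N) ≤ Real.exp (κ / 2 * Real.log N)) :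
    ∑ w ∈ Icc 1 (Nat.sqrt N), 6 * (((N / w : ℕ) : ℝ)) ^ (1 - 7 * κ) ≤ (N : ℝ) ^ (1 - 3 * κ) ∨
      1 < 7 * κ := by
  by_cases hk : 1 < 7 * κ
  · exact Or.inr hk
  left
  push Not at hk
  set n := Nat.sqrt N with hn
  have hnn : n * n ≤ N := Nat.sqrt_le N
  have hN0 : (0 : ℝ) < N := by exact_mod_cast hN
  have h1 : ∀ w ∈ Icc 1 n, 6 * (((N / w : ℕ) : ℝ)) ^ (1 - 7 * κ)
      ≤ 6 * (N : ℝ) ^ (1 - 7 * κ / 2) * ((w : ℝ))⁻¹ := by
    intro w hw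
    rw [mem_Icc] at hw
    have hw0 : (0 : ℝ) < w := by exact_mod_cast hw.1
    have hNw : (0 : ℝ) < (N : ℝ) / w := by positivity
    have h2 : (((N / w : ℕ) : ℝ)) ≤ (N : ℝ) / w := Nat.cast_div_le
    have h3 : (((N / w : ℕ) : ℝ)) ^ (1 - 7 * κ) ≤ ((N : ℝ) / w) ^ (1 - 7 * κ) :=
      Real.rpow_le_rpow (Nat.cast_nonneg _) h2 (by linarith)
    have h4 : (N : ℝ) ^ (1 / 2 : ℝ) ≤ (N : ℝ) / w := by
      rw [le_div_iff₀ hw0, ← Real.sqrt_eq_rpow]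
      have h5 : (w : ℝ) ≤ Real.sqrt N := by
        apply Real.le_sqrt_of_sq_le
        have : w ^ 2 ≤ N := by
          rw [sq]
          exact (Nat.mul_le_mul hw.2 hw.2).trans hnn
        exact_mod_cast this
      calc Real.sqrt N * w ≤ Real.sqrt N * Real.sqrt N :=
            mul_le_mul_of_nonneg_left h5 (Real.sqrt_nonneg _)
        _ = N := Real.mul_self_sqrt hN0.le
    have h5 : ((N : ℝ) / w) ^ (1 - 7 * κ) ≤ (N : ℝ) ^ (1 - 7 * κ / 2) * ((w : ℝ))⁻¹ := by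
      calc ((N : ℝ) / w) ^ (1 - 7 * κ) = ((N : ℝ) / w) * ((N : ℝ) / w) ^ (-(7 * κ)) := by
            rw [sub_eq_add_neg, Real.rpow_add hNw, Real.rpow_one]
        _ ≤ ((N : ℝ) / w) * ((N : ℝ) ^ (1 / 2 : ℝ)) ^ (-(7 * κ)) := by
            apply mul_le_mul_of_nonneg_left _ hNw.le
            exact Real.rpow_le_rpow_of_nonpos (Real.rpow_pos_of_pos hN0 _) h4 (by linarith)
        _ = (N : ℝ) ^ (1 - 7 * κ / 2) * ((w : ℝ))⁻¹ := by
            rw [← Real.rpow_mul hN0.le, show (1 : ℝ) - 7 * κ / 2 = 1 + 1 / 2 * -(7 * κ) by ring,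
              Real.rpow_add hN0, Real.rpow_one]
            field_simp
    calc 6 * (((N / w : ℕ) : ℝ)) ^ (1 - 7 * κ) ≤ 6 * ((N : ℝ) ^ (1 - 7 * κ / 2) * ((w : ℝ))⁻¹) :=
          mul_le_mul_of_nonneg_left (h3.trans h5) (by norm_num)
      _ = _ := by ring
  have h2 : ∑ w ∈ Icc 1 n, ((w : ℝ))⁻¹ ≤ 1 + Real.log N := by
    have h3 := harmonic_le_one_add_log n
    rw [harmonic_eq_sum_Icc] at h3
    push_cast at h3
    refine h3.trans ?_
    rcases Nat.eq_zero_or_pos n with h0 | h0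
    · rw [h0]
      simp only [Nat.cast_zero, Real.log_zero]
      have := Real.log_nonneg (show (1 : ℝ) ≤ N by exact_mod_cast hN)
      linarith
    · have : Real.log n ≤ Real.log N := by
        apply Real.log_le_log (by exact_mod_cast h0)
        have : n ≤ N := by nlinarith
        exact_mod_cast this
      linarith
  calc ∑ w ∈ Icc 1 n, 6 * (((N / w : ℕ) : ℝ)) ^ (1 - 7 * κ)
      ≤ ∑ w ∈ Icc 1 n, 6 * (N : ℝ) ^ (1 - 7 * κ / 2) * ((w : ℝ))⁻¹ := Finset.sum_le_sum h1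
    _ = 6 * (N : ℝ) ^ (1 - 7 * κ / 2) * ∑ w ∈ Icc 1 n, ((w : ℝ))⁻¹ := by rw [Finset.mul_sum]
    _ ≤ 6 * (N : ℝ) ^ (1 - 7 * κ / 2) * (1 + Real.log N) :=
        mul_le_mul_of_nonneg_left h2 (by positivity)
    _ = (N : ℝ) ^ (1 - 7 * κ / 2) * (6 * (1 + Real.log N)) := by ring
    _ ≤ (N : ℝ) ^ (1 - 7 * κ / 2) * Real.exp (κ / 2 * Real.log N) :=
        mul_le_mul_of_nonneg_left h6 (Real.rpow_nonneg hN0.le _)
    _ = (N : ℝ) ^ (1 - 3 * κ) := by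
        rw [mul_comm (κ / 2), ← Real.rpow_def_of_pos hN0, ← Real.rpow_add hN0]
        congr 1
        ring

theorem sve : Stmt_Gen → MP_2738db_nt_U.Stmt_Loc → Stmt_Sve := by
  intro hG hL ε hε hε1
  obtain ⟨κ, hκ0, hκ1, M₀, hM₀⟩ := coreSv hG hL (ε / 2) (by linarith) (by linarith)
  obtain ⟨y₀, hy5, hy₀⟩ := numE ε κ hε hε1 hκ0
  refine ⟨3 * κ, by positivity, M₀ * M₀ + ⌈Real.exp (3 * y₀)⌉₊, ?_⟩
  intro N hN
  have hN1 : M₀ * M₀ ≤ N := (Nat.le_add_right _ _).trans hN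
  have hN2 : ⌈Real.exp (3 * y₀)⌉₊ ≤ N := (Nat.le_add_left _ _).trans hN
  have hN3 : Real.exp (3 * y₀) ≤ N := (Nat.le_ceil _).trans (by exact_mod_cast hN2)
  have hN0 : (0 : ℝ) < N := lt_of_lt_of_le (Real.exp_pos _) hN3
  have hNone : 1 ≤ N := by exact_mod_cast hN0
  have hx : 3 * y₀ ≤ Real.log N := (Real.le_log_iff_exp_le hN0).2 hN3
  set n := Nat.sqrt N with hn
  have hMn : M₀ ≤ n := Nat.le_sqrt.2 hN1
  have hnn : n * n ≤ N := Nat.sqrt_le N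
  set FA : ℕ → Set ℕ := fun w => (fun t => w * t) ''
    ExE (N / w) (ε / 2) (fun t k l => ∃ A, EqE w t k l A) with hFA
  set FB : ℕ → Set ℕ := fun w => (fun t => w * t) ''
    ExE (N / w) (ε / 2) (fun t k l => ∃ A, EqE t w k l A) with hFB
  have hsub : {c : ℕ | 1 ≤ c ∧ c ≤ N ∧ ∃ u V k l A : ℕ, c = u * V ∧ 1 ≤ k ∧ l.Prime ∧
      Real.log l ≤ Real.log N ^ (1 - ε) ∧
      (k.primeFactors.card : ℝ) ≤ Real.exp (Real.log N ^ (1 - ε)) ∧
      EqE u V k l A} ⊆ ⋃ w ∈ Icc 1 n, (FA w ∪ FB w) := by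
    rintro c ⟨hc1, hcN, u, V, k, l, A, rfl, hk, hl, hll, hkk, hE⟩
    have hu1 : 1 ≤ u := Nat.pos_of_ne_zero (by rintro rfl; simp at hc1)
    have hV1 : 1 ≤ V := Nat.pos_of_ne_zero (by rintro rfl; simp at hc1)
    have hor : u ≤ n ∨ V ≤ n := by
      by_contra hcon
      push Not at hcon
      have h1 : (n + 1) * (n + 1) ≤ u * V := Nat.mul_le_mul hcon.1 hcon.2
      have h2 : N < (n + 1) * (n + 1) := Nat.lt_succ_sqrt N
      omega
    rcases hor with h | h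
    · obtain ⟨-, h2⟩ := condE hε hε1 hy5 (fun y hy => ⟨(hy₀ y hy).1, (hy₀ y hy).2.1⟩) hx hu1 h
      refine Set.mem_biUnion (x := u) (mem_coe.2 (mem_Icc.2 ⟨hu1, h⟩)) (Or.inl ⟨V, ?_, rfl⟩)
      refine ⟨hV1, ?_, k, l, hk, hl, hll.trans h2, hkk.trans (Real.exp_le_exp.2 h2), A, hE⟩
      rw [Nat.le_div_iff_mul_le hu1, mul_comm]
      exact hcN
    · obtain ⟨-, h2⟩ := condE hε hε1 hy5 (fun y hy => ⟨(hy₀ y hy).1, (hy₀ y hy).2.1⟩) hx hV1 h
      refine Set.mem_biUnion (x := V) (mem_coe.2 (mem_Icc.2 ⟨hV1, h⟩))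
        (Or.inr ⟨u, ?_, mul_comm _ _⟩)
      refine ⟨hu1, ?_, k, l, hk, hl, hll.trans h2, hkk.trans (Real.exp_le_exp.2 h2), A, hE⟩
      rw [Nat.le_div_iff_mul_le hV1]
      exact hcN
  have hfin : (⋃ w ∈ Icc 1 n, (FA w ∪ FB w)).Finite := by
    refine (Icc 1 n).finite_toSet.biUnion (fun w _ => ?_)
    exact ((ExE_finite _ _ _).image _).union ((ExE_finite _ _ _).image _)
  have h1 : (({c : ℕ | 1 ≤ c ∧ c ≤ N ∧ ∃ u V k l A : ℕ, c = u * V ∧ 1 ≤ k ∧ l.Prime ∧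
      Real.log l ≤ Real.log N ^ (1 - ε) ∧
      (k.primeFactors.card : ℝ) ≤ Real.exp (Real.log N ^ (1 - ε)) ∧
      EqE u V k l A}.ncard : ℕ) : ℝ) ≤ ∑ w ∈ Icc 1 n, ((FA w ∪ FB w).ncard : ℝ) := by
    have h2 := (Set.ncard_le_ncard hsub hfin).trans (Finset.set_ncard_biUnion_le (Icc 1 n) _)
    exact_mod_cast h2
  have h2 : ∀ w ∈ Icc 1 n, ((FA w ∪ FB w).ncard : ℝ)
      ≤ 6 * (((N / w : ℕ) : ℝ)) ^ (1 - 7 * κ) := by
    intro w hw
    rw [mem_Icc] at hw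
    obtain ⟨h3, -⟩ := condE hε hε1 hy5 (fun y hy => ⟨(hy₀ y hy).1, (hy₀ y hy).2.1⟩) hx hw.1 hw.2
    have hMw : M₀ ≤ N / w := by
      rw [Nat.le_div_iff_mul_le hw.1]
      exact (Nat.mul_le_mul hMn hw.2).trans hnn
    have hA := hM₀ (N / w) (2 * w) hMw (by omega) h3 _ (eqA w)
    have hB := hM₀ (N / w) (2 * w) hMw (by omega) h3 _ (eqB w)
    have h4 : (FA w ∪ FB w).ncard ≤
        (ExE (N / w) (ε / 2) (fun t k l => ∃ A, EqE w t k l A)).ncard +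
        (ExE (N / w) (ε / 2) (fun t k l => ∃ A, EqE t w k l A)).ncard :=
      (Set.ncard_union_le _ _).trans (Nat.add_le_add
        (Set.ncard_image_le (ExE_finite _ _ _)) (Set.ncard_image_le (ExE_finite _ _ _)))
    have h5 : ((FA w ∪ FB w).ncard : ℝ) ≤
        ((ExE (N / w) (ε / 2) (fun t k l => ∃ A, EqE w t k l A)).ncard : ℝ) +
        ((ExE (N / w) (ε / 2) (fun t k l => ∃ A, EqE t w k l A)).ncard : ℝ) := by
      exact_mod_cast h4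
    linarith
  rcases sumE hκ0 hNone ((hy₀ _ (by linarith)).2.2) with h3 | h3
  · exact h1.trans ((Finset.sum_le_sum h2).trans h3)
  · linarith

end Pool.Agent.Work.MP_2738db_nt_C.helper26
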